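import Pool.Agent.Y142.SS.Stm

/-!
# Complex conjugation
-/

set_option autoImplicit false

namespace Pool.Agent.Y288.SS

open Pool.Agent.Y142.SS Pool.Agent.Y142.ZI Pool.Agent.Y142.ZO

theorem isalg : Algebra.IsAlgebraic ℚ QQ := AlgebraicClosure.isAlgebraic ℚ

theorem normalQ : Normal ℚ QQ := by
  have := isalg
  exact normal_iff.2 fun x => ⟨(Algebra.IsAlgebraic.isAlgebraic x).isIntegral, IsAlgClosed.splits _⟩

theorem t : S_CONJ := by
  have := isalg
  let κ : QQ →ₐ[ℚ] ℂ := IsAlgClosed.lift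
  let _ : Algebra QQ ℂ := κ.toRingHom.toAlgebra
  have htow : IsScalarTower ℚ QQ ℂ :=
    IsScalarTower.of_algebraMap_eq fun q => by
      rw [eq_ratCast, eq_ratCast, map_ratCast]
  let χ : ℂ ≃ₐ[ℚ] ℂ :=
    AlgEquiv.ofRingEquiv (f := starRingAut (R := ℂ)) fun q => by
      rw [eq_ratCast, map_ratCast]
  have hnorm : Normal ℚ QQ := normalQ
  refine ⟨κ.toRingHom, χ.restrictNormal QQ, fun x => ?_⟩
  exact χ.restrictNormal_commutes QQ x

end Pool.Agent.Y288.SS
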